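import Pool.Agent.H73.KT.Fin
import Pool.Agent.H73.KP.Pln

/-!
# Maximal gaps are independent of the Riemann hypothesis, the laws of all constellations and the Poisson law

A system of generalised primes (Beurling primes) is a sequence `1 < q 0 < q 1 < ...` of real numbers; its generalised
integers are the products `gint q n = ∏ q (k - 1)` over the prime factors of `n` (with multiplicity, the factor being the
`k`-th prime number), one for every `n ≥ 1`, counted with multiplicity; for `q = 2, 3, 5, ...` one has `gint q n = n`.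

`RHSystem q` collects what the Riemann hypothesis and the Lindelöf hypothesis would give for the primes, in a strong form:
the generalised primes satisfy the prime number theorem with the error `O(√x)`, the generalised integers have a positive
density with the error `O(x ^ (1 / 2 + ε))`, and the zeta function `∑ (gint q n) ^ (-s)` is `s / (s - 1) * exp (G s)` with `G`
holomorphic in `Re s > 1 / 2` and `|G (σ + i t)| = O(√ (log (|t| + 3)))` uniformly in every half-plane `σ ≥ σ₀ > 1 / 2`; so it has
a meromorphic continuation with one simple pole and without zeros in `Re s > 1 / 2`, and there it and its reciprocal are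
`O(|t| ^ ε)` for every `ε > 0`.

`PoissonLaw q`: for every `l > 0` and every `k` the set of the `x ∈ [2, X]` with exactly `k` primes in `(x, x + l log x]` has the
measure `X exp (-l) l ^ k / k! + o(X)`.

The theorem: let the numbers of all patterns `D` (finite sets of natural numbers with `0 ∈ D`, `|D| ≥ 2`; `tupleCount q D x` counts
the primes `p ≤ x` such that `p + d` is a prime for all `d ∈ D`) be prescribed, for all `D` at the same time, with the error
`O(x ^ (1 / 2 + ε))`: for instance `c D ∫_2^x du / (log u) ^ |D|` with the constants of Hardy and Littlewood, or with others. There are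
systems with `RHSystem`, with these laws and with `PoissonLaw` whose maximal gaps have a prescribed order, every order between
`log x` and `√x log x` (larger gaps are impossible by the error term of the prime number theorem); in particular the constant of
Cramér's conjecture can have every value in `[0, ∞]`. The same theorem without the laws of the patterns is
`MP_ff81b6_nt.BeurlingGaps` (now superseded).

Proof. Let `m u = (1 - 1 / u) / log u`; `exp ∫_1^∞ u ^ (-s) m u du = s / (s - 1)`. Cut `(1, ∞)` into blocks of slowly growing masses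
`a b + 1`; the block gets `a b + 1` points: either a random pattern `D ⊆ [0, a b]` placed at a random position and wrapped around, and
further points at large distances, or (for most blocks) a rotated and scaled copy of a fixed finite set in whose segments all functions
`f : {1, ..., m} → {1, ..., m ^ 2}` are listed, so that the numbers of its points in intervals are binomially distributed. Each point is uniformly distributed, whatever the pattern; the probabilities
of the patterns solve a triangular system. The method of conditional expectations for countably many tests (the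
exponential moments of the twisted sums `∑_{q ≤ x} q ^ (-i m)` and of the numbers of all patterns), outside null sets that would
create integer distances between neighbouring blocks, gives the sequence. Its gaps are `o(h x)` if `a b` grows slowly enough.
Then make sparse holes: the points in `(α, α + h α]` are moved to the right of `α + h α`; these are `O(√x)` points, which
changes neither the twisted sums nor the numbers of the patterns by more than `O(√x)`, and not the Poisson law. The integral of the twisted discrepancy of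
frequency `m` against `x ^ (-w - 1)` continues the logarithm of the zeta function near the line of height `m` (identity theorem),
with a bound that is uniform in `m`. The generalised integers are counted by the inversion formula for Mellin transforms
applied to a Riesz mean and a shift of the line of integration (`Pool.Agent.H49.BP`).
-/

set_option autoImplicit false

open Filter Topology MeasureTheory

namespace Pool.Agent.Results.MP_ff81b6_nt.GapsGivenAllConstellations

open Pool.Agent.H49.BP

/-- The number of generalised primes up to `x`. -/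
noncomputable def primeCount (q : ℕ → ℝ) (x : ℝ) : ℕ := {j : ℕ | q j ≤ x}.ncard

/-- The number of generalised integers up to `x`, with multiplicity. -/
noncomputable def intCount (q : ℕ → ℝ) (x : ℝ) : ℕ := {n : ℕ | 1 ≤ n ∧ gint q n ≤ x}.ncard

/-- The number of the generalised primes `p ≤ x` such that `p + d` is a generalised prime for every `d ∈ D`. -/
noncomputable def tupleCount (q : ℕ → ℝ) (D : Finset ℕ) (x : ℝ) : ℕ :=
  {n : ℕ | q n ≤ x ∧ ∀ d ∈ D, ∃ k, q k = q n + d}.ncard

/-- The number of generalised primes in `(x, x + y]`. -/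
noncomputable def windowCount (q : ℕ → ℝ) (x y : ℝ) : ℕ := {n : ℕ | x < q n ∧ q n ≤ x + y}.ncard

/-- The number of the generalised primes in `(x, x + l log x]` has the Poisson distribution with mean `l`: the measure of the
set of the `x ∈ [2, X]` with exactly `k` primes in `(x, x + l log x]`, divided by `X`, tends to `exp (-l) l ^ k / k!`. -/
def PoissonLaw (q : ℕ → ℝ) : Prop := ∀ l : ℝ, 0 < l → ∀ k : ℕ,
  Tendsto (fun X : ℝ => volume.real {x : ℝ | 2 ≤ x ∧ x ≤ X ∧ windowCount q x (l * Real.log x) = k} / X) atTop
    (𝓝 (Real.exp (-l) * l ^ k / (k.factorial : ℝ)))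

/-- The generalised primes `q` satisfy the analogues of the Riemann hypothesis and of the Lindelöf hypothesis: they increase
strictly from `q 0 > 1`; their number up to `x` is `∫_2^x du / log u + O(√x)`; the number of the generalised integers up to `x` is
`ρ x + O(x ^ (1 / 2 + ε))` for every `ε > 0`, with a `ρ > 0`; the zeta function is `s / (s - 1) * exp (G s)` for `Re s > 1`, with a function
`G` that is holomorphic in `Re s > 1 / 2` and at most `C √(log (|Im s| + 3))` for `Re s ≥ σ`, for every `σ > 1 / 2`. -/
def RHSystem (q : ℕ → ℝ) : Prop :=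
  StrictMono q ∧ 1 < q 0 ∧
    (∃ C : ℝ, ∀ x : ℝ, 2 ≤ x → |(primeCount q x : ℝ) - ∫ u in (2 : ℝ)..x, (Real.log u)⁻¹| ≤ C * √x) ∧
    (∃ ρ : ℝ, 0 < ρ ∧ ∀ ε : ℝ, 0 < ε → ∃ C : ℝ, ∀ x : ℝ, 1 ≤ x →
      |(intCount q x : ℝ) - ρ * x| ≤ C * x ^ (1 / 2 + ε)) ∧
    ∃ G : ℂ → ℂ, DifferentiableOn ℂ G {s | 1 / 2 < s.re} ∧
      (∀ s : ℂ, 1 < s.re → ∑' n : ℕ, ((gint q (n + 1) : ℝ) : ℂ) ^ (-s) = s / (s - 1) * Complex.exp (G s)) ∧
      ∀ σ : ℝ, 1 / 2 < σ → ∃ C : ℝ, ∀ s : ℂ, σ ≤ s.re → ‖G s‖ ≤ C * √(Real.log (|s.im| + 3))

theorem rh_of {q : ℕ → ℝ} (hmono : StrictMono q) (hg : ∀ n : ℕ, (n : ℝ) + 1 ≤ q n) (hq0 : 1 < q 0) (hD : Disc q)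
    (hp : ∃ C : ℝ, ∀ x : ℝ, 2 ≤ x → |(pc q x : ℝ) - ∫ u in (2 : ℝ)..x, (Real.log u)⁻¹| ≤ C * √x) : RHSystem q := by
  obtain ⟨G, hG1, hG2, hG3, ρ, hρ, hN⟩ := zeta hmono hg hq0 hD
  refine ⟨hmono, hq0, hp, ⟨ρ, hρ, fun ε hε => ?_⟩, G, hG1, hG2, hG3⟩
  obtain ⟨C, hC⟩ := hN ε hε
  refine ⟨C, fun x hx => ?_⟩
  have e : intCount q x = {n : ℕ | gint q (n + 1) ≤ x}.ncard := by
    unfold intCount
    have h1 : {n : ℕ | 1 ≤ n ∧ gint q n ≤ x} = (fun n => n + 1) '' {n : ℕ | gint q (n + 1) ≤ x} := by
      ext n
      constructor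
      · rintro ⟨h2, h3⟩
        refine ⟨n - 1, ?_, by simp only; omega⟩
        show gint q (n - 1 + 1) ≤ x
        rw [Nat.sub_add_cancel h2]
        exact h3
      · rintro ⟨k, hk, rfl⟩
        exact ⟨by simp only; omega, hk⟩
    rw [h1, Set.ncard_image_of_injective _ (fun a b hab => by simpa using hab)]
  rw [e]
  exact hC x hx

theorem limsup_real {u : ℕ → ℝ} {l : ℝ} (h1 : ∀ ε : ℝ, 0 < ε → ∀ᶠ n in atTop, u n ≤ l + ε)
    (h2 : ∀ ε : ℝ, 0 < ε → ∃ᶠ n in atTop, l - ε ≤ u n) : limsup (fun n => (u n : EReal)) atTop = (l : EReal) := by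
  refine le_antisymm ?_ ?_
  · refine le_of_forall_gt_imp_ge_of_dense fun a ha => ?_
    obtain ⟨c, hc1, hc2⟩ := EReal.lt_iff_exists_real_btwn.1 ha
    have hc : l < c := EReal.coe_lt_coe_iff.1 hc1
    refine le_trans ?_ hc2.le
    refine limsup_le_of_le (by isBoundedDefault) ?_
    filter_upwards [h1 (c - l) (by linarith)] with n hn
    exact EReal.coe_le_coe_iff.2 (by linarith)
  · refine le_of_forall_lt_imp_le_of_dense fun a ha => ?_
    obtain ⟨c, hc1, hc2⟩ := EReal.lt_iff_exists_real_btwn.1 ha
    have hc : c < l := EReal.coe_lt_coe_iff.1 hc2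
    refine hc1.le.trans ?_
    refine le_limsup_of_frequently_le ?_ (by isBoundedDefault)
    refine (h2 (l - c) (by linarith)).mono fun n hn => ?_
    exact EReal.coe_le_coe_iff.2 (by linarith)

theorem limsup_top {u : ℕ → ℝ} (h2 : ∀ K : ℝ, ∃ᶠ n in atTop, K ≤ u n) :
    limsup (fun n => (u n : EReal)) atTop = ⊤ := by
  rw [EReal.eq_top_iff_forall_lt]
  intro K
  refine lt_of_lt_of_le (EReal.coe_lt_coe_iff.2 (show K < K + 1 by linarith)) ?_
  refine le_limsup_of_frequently_le ?_ (by isBoundedDefault)
  exact (h2 (K + 1)).mono fun n hn => EReal.coe_le_coe_iff.2 hn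

/-- the system -/
theorem main {n : Finset ℕ → ℝ → ℝ} (hn : Pool.Agent.H73.KT.Laws n) {h : ℝ → ℝ}
    (hlim : Tendsto (fun x => h x / Real.log x) atTop atTop)
    (hup : ∃ A : ℝ, ∀ᶠ x in atTop, h x ≤ A * √x * Real.log x) :
    ∃ q : ℕ → ℝ, (RHSystem q ∧ (∀ D : Finset ℕ, 0 ∈ D → 2 ≤ D.card → ∀ ε : ℝ, 0 < ε → ∃ C : ℝ, ∀ x : ℝ, 2 ≤ x →
      |(tupleCount q D x : ℝ) - ∫ u in (2 : ℝ)..x, n D u / Real.log u| ≤ C * x ^ (1 / 2 + ε)) ∧ PoissonLaw q) ∧
      Tendsto q atTop atTop ∧ GapLim q h := by
  obtain ⟨q, h1, h2, h3, h4, h5, h6, h7, h8, h9⟩ := Pool.Agent.H73.KP.sys_plain hn hlim hup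
  exact ⟨q, ⟨rh_of h1 h3 h2 h4 h5, h6, h7⟩, h8, h9⟩

theorem log_div_sqrt : ∀ᶠ x : ℝ in atTop, Real.log x ^ 2 ≤ √x := by
  have h := (isLittleO_log_rpow_rpow_atTop (2 : ℝ) (show (0 : ℝ) < 1 / 2 by norm_num)).bound one_pos
  filter_upwards [h, eventually_gt_atTop 1] with x hx h1
  rw [one_mul, Real.norm_of_nonneg (Real.rpow_nonneg (Real.log_nonneg h1.le) _),
    Real.norm_of_nonneg (Real.rpow_nonneg (by linarith) _)] at hx
  rw [Real.sqrt_eq_rpow]
  have e : Real.log x ^ (2 : ℝ) = Real.log x ^ 2 := by
    rw [← Real.rpow_natCast]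
    norm_num
  rwa [e] at hx

/-- the theorem for general laws and Cramér's normalisation -/
theorem cramer {n : Finset ℕ → ℝ → ℝ} (hn : Pool.Agent.H73.KT.Laws n) (L : EReal) (hL : 0 ≤ L) :
    ∃ q : ℕ → ℝ, (RHSystem q ∧ (∀ D : Finset ℕ, 0 ∈ D → 2 ≤ D.card → ∀ ε : ℝ, 0 < ε → ∃ C : ℝ, ∀ x : ℝ, 2 ≤ x →
      |(tupleCount q D x : ℝ) - ∫ u in (2 : ℝ)..x, n D u / Real.log u| ≤ C * x ^ (1 / 2 + ε)) ∧ PoissonLaw q) ∧
      limsup (fun n => (((q (n + 1) - q n) / Real.log (q n) ^ 2 : ℝ) : EReal)) atTop = L := by
  -- the logarithm along a system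
  have hlogtop : ∀ {q : ℕ → ℝ}, Tendsto q atTop atTop → Tendsto (fun n => Real.log (q n)) atTop atTop :=
    fun htop => Real.tendsto_log_atTop.comp htop
  induction L using EReal.rec with
  | bot => simp at hL
  | top =>
    obtain ⟨q, hq, htop, hg1, hg2⟩ := main hn (h := fun x => Real.log x ^ 3) (by
      have h1 : Tendsto (fun x => Real.log x ^ 2) atTop atTop :=
        (tendsto_pow_atTop two_ne_zero).comp Real.tendsto_log_atTop
      refine h1.congr' ?_
      filter_upwards [eventually_gt_atTop 1] with x hx
      have := (Real.log_pos hx).ne'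
      field_simp) ⟨1, by
      filter_upwards [log_div_sqrt, eventually_gt_atTop 1] with x h1 h2
      have hl := Real.log_pos h2
      have := mul_le_mul_of_nonneg_right h1 hl.le
      nlinarith⟩
    refine ⟨q, hq, limsup_top fun K => ?_⟩
    have hl := hlogtop htop
    refine ((hg2 (1 / 2) (by norm_num)).and_eventually ((hl.eventually (eventually_ge_atTop (2 * |K|))).and
      (hl.eventually (eventually_gt_atTop 0)))).mono fun n hn => ?_
    obtain ⟨h1, h2, h3⟩ := hn
    rw [le_div_iff₀ (by positivity)]
    have h4 := le_abs_self K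
    have h5 : K * Real.log (q n) ^ 2 ≤ |K| * Real.log (q n) ^ 2 :=
      mul_le_mul_of_nonneg_right h4 (by positivity)
    have h6 : |K| * Real.log (q n) ^ 2 ≤ (Real.log (q n) / 2) * Real.log (q n) ^ 2 :=
      mul_le_mul_of_nonneg_right (by linarith) (by positivity)
    nlinarith
  | coe l =>
    have hl0 : 0 ≤ l := by exact_mod_cast hL
    rcases eq_or_lt_of_le hl0 with h0 | h0
    · subst h0
      obtain ⟨q, hq, htop, hg1, hg2⟩ := main hn (h := fun x => Real.log x * √(Real.log x)) (by
        have h1 : Tendsto (fun x => √(Real.log x)) atTop atTop :=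
          Real.tendsto_sqrt_atTop.comp Real.tendsto_log_atTop
        refine h1.congr' ?_
        filter_upwards [eventually_gt_atTop 1] with x hx
        have := (Real.log_pos hx).ne'
        field_simp) ⟨1, by
        filter_upwards [log_div_sqrt, eventually_gt_atTop (Real.exp 1)] with x h1 h2
        have hx1 : 1 < x := lt_trans (by
          have := Real.add_one_le_exp 1
          linarith) h2
        have hl : 1 ≤ Real.log x := by
          rw [Real.le_log_iff_exp_le (by linarith)]
          exact h2.le
        have h3 : √(Real.log x) ≤ Real.log x ^ 2 := by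
          calc √(Real.log x) ≤ Real.log x := by
                rw [Real.sqrt_le_left (by linarith)]
                nlinarith
            _ ≤ Real.log x ^ 2 := by nlinarith
        nlinarith⟩
      refine ⟨q, hq, ?_⟩
      have hl := hlogtop htop
      have := limsup_real (u := fun n => (q (n + 1) - q n) / Real.log (q n) ^ 2) (l := 0) (fun ε hε => by
        filter_upwards [hg1 1 one_pos, hl.eventually (eventually_ge_atTop ((2 / ε) ^ 2)),
          hl.eventually (eventually_gt_atTop 0)] with n h1 h2 h3
        have h4 : 2 / ε ≤ √(Real.log (q n)) := by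
          rw [Real.le_sqrt' (by positivity)]
          exact h2
        have h5 : 2 ≤ ε * √(Real.log (q n)) := by
          rw [div_le_iff₀ hε] at h4
          linarith
        have h6 : √(Real.log (q n)) * √(Real.log (q n)) = Real.log (q n) := Real.mul_self_sqrt h3.le
        rw [div_le_iff₀ (by positivity), zero_add]
        have h7 : 2 * √(Real.log (q n)) ≤ ε * Real.log (q n) := by
          calc 2 * √(Real.log (q n)) ≤ (ε * √(Real.log (q n))) * √(Real.log (q n)) :=
                mul_le_mul_of_nonneg_right h5 (Real.sqrt_nonneg _)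
            _ = ε * Real.log (q n) := by rw [mul_assoc, h6]
        have h8 := mul_le_mul_of_nonneg_left h7 h3.le
        nlinarith) (fun ε hε => by
        refine Eventually.frequently ?_
        filter_upwards with n
        have h1 : 0 ≤ q (n + 1) - q n := sub_nonneg.2 (hq.1.1.monotone (Nat.le_succ n))
        have h2 : 0 ≤ (q (n + 1) - q n) / Real.log (q n) ^ 2 := by positivity
        linarith)
      rw [this]
    · obtain ⟨q, hq, htop, hg1, hg2⟩ := main hn (h := fun x => l * Real.log x ^ 2) (by
        have h1 : Tendsto (fun x => l * Real.log x) atTop atTop :=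
          Real.tendsto_log_atTop.const_mul_atTop h0
        refine h1.congr' ?_
        filter_upwards [eventually_gt_atTop 1] with x hx
        have := (Real.log_pos hx).ne'
        field_simp) ⟨l, by
        filter_upwards [log_div_sqrt, eventually_gt_atTop (Real.exp 1)] with x h1 h2
        have hx1 : 1 < x := lt_trans (by
          have := Real.add_one_le_exp 1
          linarith) h2
        have hl : 1 ≤ Real.log x := by
          rw [Real.le_log_iff_exp_le (by linarith)]
          exact h2.le
        have h3 : Real.log x ^ 2 ≤ √x * Real.log x := by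
          calc Real.log x ^ 2 ≤ √x := h1
            _ ≤ √x * Real.log x := le_mul_of_one_le_right (Real.sqrt_nonneg _) hl
        rw [mul_assoc]
        exact mul_le_mul_of_nonneg_left h3 h0.le⟩
      refine ⟨q, hq, ?_⟩
      have hl := hlogtop htop
      refine limsup_real (fun ε hε => ?_) (fun ε hε => ?_)
      · filter_upwards [hg1 (ε / l) (by positivity), hl.eventually (eventually_gt_atTop 0)] with n h1 h3
        rw [div_le_iff₀ (by positivity)]
        refine h1.trans (le_of_eq ?_)
        field_simp
      · refine ((hg2 (ε / l) (by positivity)).and_eventually (hl.eventually (eventually_gt_atTop 0))).mono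
          fun n hn => ?_
        obtain ⟨h1, h3⟩ := hn
        rw [le_div_iff₀ (by positivity)]
        refine le_trans (le_of_eq ?_) h1
        field_simp

/-- (1) For every family of laws `n D` of the patterns `D` (finite sets of natural numbers with `0 ∈ D`, `|D| ≥ 2`), measurable,
nonnegative, bounded, tending to `0`, and such that `n D' = o(n D)` if `D' ≠ D` contains a translate of `D`, and for every function `h` with
`h x / log x → ∞` and `h x = O(√x log x)` there are generalised primes with the analogues of the Riemann hypothesis and of the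
Lindelöf hypothesis such that the number of the `D`-tuples up to `x` is `∫_2^x (n D u) du / log u + O(x ^ (1 / 2 + ε))` for every `D`,
with the Poisson law for the numbers of the primes in the intervals `(x, x + l log x]`, and whose maximal gaps have exactly the order `h`.
(2) For all constants `c D ≥ 0` (`c D' = 0` if `D'` contains a translate of a `D` with `c D = 0`), for instance for the constants of Hardy
and Littlewood, and for every `L ∈ [0, ∞]` there are generalised primes with the analogues of the Riemann hypothesis and of the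
Lindelöf hypothesis and with the Poisson law such that the number of the `D`-tuples up to `x` is
`c D ∫_2^x du / (log u) ^ |D| + O(x ^ (1 / 2 + ε))` for every `D`, and the limit superior of `(q (n + 1) - q n) / (log (q n)) ^ 2` is `L`. -/
theorem result :
    (∀ n : Finset ℕ → ℝ → ℝ, (∀ D, Measurable (n D)) → (∀ D u, 0 ≤ n D u) → (∀ D, ∃ B : ℝ, ∀ u, n D u ≤ B) →
      (∀ D : Finset ℕ, 0 ∈ D → 2 ≤ D.card → Tendsto (n D) atTop (𝓝 0)) →
      (∀ D D' : Finset ℕ, 0 ∈ D → 2 ≤ D.card → 0 ∈ D' → D ≠ D' → (∃ t, ∀ d ∈ D, t + d ∈ D') →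
        ∀ δ : ℝ, 0 < δ → ∀ᶠ u in atTop, n D' u ≤ δ * n D u) →
      ∀ h : ℝ → ℝ, Tendsto (fun x => h x / Real.log x) atTop atTop →
        (∃ A : ℝ, ∀ᶠ x in atTop, h x ≤ A * √x * Real.log x) →
          ∃ q : ℕ → ℝ, RHSystem q ∧
            (∀ D : Finset ℕ, 0 ∈ D → 2 ≤ D.card → ∀ ε : ℝ, 0 < ε → ∃ C : ℝ, ∀ x : ℝ, 2 ≤ x →
              |(tupleCount q D x : ℝ) - ∫ u in (2 : ℝ)..x, n D u / Real.log u| ≤ C * x ^ (1 / 2 + ε)) ∧
            PoissonLaw q ∧
            limsup (fun n => (((q (n + 1) - q n) / h (q n) : ℝ) : EReal)) atTop = 1) ∧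
    ∀ c : Finset ℕ → ℝ, (∀ D, 0 ≤ c D) →
      (∀ D D' : Finset ℕ, 0 ∈ D → 2 ≤ D.card → 0 ∈ D' → (∃ t, ∀ d ∈ D, t + d ∈ D') → c D = 0 → c D' = 0) →
      ∀ L : EReal, 0 ≤ L → ∃ q : ℕ → ℝ, RHSystem q ∧
        (∀ D : Finset ℕ, 0 ∈ D → 2 ≤ D.card → ∀ ε : ℝ, 0 < ε → ∃ C : ℝ, ∀ x : ℝ, 2 ≤ x →
          |(tupleCount q D x : ℝ) - c D * ∫ u in (2 : ℝ)..x, 1 / (Real.log u) ^ D.card| ≤ C * x ^ (1 / 2 + ε)) ∧
        PoissonLaw q ∧
        limsup (fun n => (((q (n + 1) - q n) / Real.log (q n) ^ 2 : ℝ) : EReal)) atTop = L := by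
  have hmt : ∀ {D D' : Finset ℕ}, Pool.Agent.H73.KT.mult D D' ≠ 0 → ∃ t, ∀ d ∈ D, t + d ∈ D' := by
    intro D D' h
    obtain ⟨t, _, h⟩ := Pool.Agent.H73.KT.mult_ne h
    exact ⟨t, h⟩
  constructor
  · intro n h1 h2 h3 h4 h5 h hlim hup
    obtain ⟨q, ⟨hq, hlaw, hpo⟩, htop, hg1, hg2⟩ := main (n := n) ⟨h1, h2, h3, h4,
      fun D D' hD hD2 hD' hne hm => h5 D D' hD hD2 hD' hne (hmt hm)⟩ hlim hup
    refine ⟨q, hq, hlaw, hpo, ?_⟩
    have hpos : ∀ᶠ n in atTop, 0 < h (q n) := by
      have h1 : ∀ᶠ x in atTop, 0 < h x := by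
        filter_upwards [hlim.eventually (eventually_gt_atTop 0), eventually_gt_atTop 1] with x h1 h2
        have hl := Real.log_pos h2
        have := mul_pos h1 hl
        rwa [div_mul_cancel₀ _ hl.ne'] at this
      exact htop.eventually h1
    have := limsup_real (u := fun n => (q (n + 1) - q n) / h (q n)) (l := 1) (fun ε hε => by
      filter_upwards [hg1 ε hε, hpos] with n h1 h2
      rw [div_le_iff₀ h2]
      exact h1) (fun ε hε => by
      refine ((hg2 ε hε).and_eventually hpos).mono fun n hn => ?_
      rw [le_div_iff₀ hn.2]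
      exact hn.1)
    rw [this]
    rfl
  · intro c hc hc0 L hL
    obtain ⟨q, ⟨hq, hlaw, hpo⟩, hlimsup⟩ := cramer (Pool.Agent.H73.KT.nb_laws hc
      (fun D D' hD hD2 hD' hm => hc0 D D' hD hD2 hD' (hmt hm)) (Bad := fun _ => False) (fun _ _ _ h => h)
      (X := ∅) MeasurableSet.empty) L hL
    refine ⟨q, hq, fun D hD hD2 ε hε => ?_, hpo, hlimsup⟩
    obtain ⟨C, hC⟩ := hlaw D hD hD2 ε hε
    refine ⟨C, fun x hx => ?_⟩
    rw [← Pool.Agent.H73.KT.nb_int (Bad := fun _ => False) (X := ∅) hD2 (fun h => h) hx]
    exact hC x hx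

end Pool.Agent.Results.MP_ff81b6_nt.GapsGivenAllConstellations
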