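import Pool.Agent.H41.LD.Main
import Pool.Agent.H41.LD.Primes

/-! # Cramér's constant and local dependence: the exact range in models of finite range

Cramér's model puts the integers `n` independently into a random set, with probability `1 / log n`,
and its limsup of `(a' - a) / (log a) ^ 2` is `1`. How much does this value depend on the
independence, if only *local* dependence is allowed? Let `m n` be the range of dependence: the parts
of the random set in `[0, n]` and in `(n + m n, ∞)` are independent. The answer is a sharp phase
transition at the range `(1 / e) log n`: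

* for bounded `m n = d` the possible constants are exactly those in `[1, d + 1]`;
* for `m n → ∞`, `m n ~ c log n`, `c = l log (1 / l) < 1 / e`, `1 / e < l ≤ 1`, they are exactly
  those in `[l, ∞]`; so for all ranges `o (log n)` the value `1` of Cramér is the smallest one, and
  at the threshold the minimum tends to `1 / e`;
* for `m n ≥ c log n`, `c > 1 / e`, all values in `[0, ∞]` occur (the minimum jumps to `0`).

The lower bound needs only a one-sided hypothesis: given the set up to `j`, the conditional
probability of `n` is at most `(κ + o (1)) / log n` if `j + m j < n`. It has a deterministic form for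
the primes themselves: if `L < l`, then for all large `X` and each distance `d ≤ (c + δ) log X` there
is `h ≤ l (log X) ^ 2` such that the primes at distance `d` after the end of the prime-free intervals
`(n, n + h]`, `n < X`, are too frequent by a factor `1 + δ`.

Proof. Lower bound: the local lemma (the probabilities `g k` that `(a, a + k]` is empty satisfy
`g (k + 1) ≥ g k - p g (k - M)`), conditionally on the past, and a product over many windows. The
optimal models consist of independent blocks of length `(log n) ^ (3 / 2)` with the hard-core model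
(Shearer's measure) of range `m` and a suitable smaller density, united with independent noise; the
density is found by the intermediate value theorem, and the rate by iterating `τ ↦ exp (c τ)`, which
converges to `1 / l` for `c = l log (1 / l)` and to infinity for `c > 1 / e`. Values larger than `1`
come from clusters. -/

set_option autoImplicit false

namespace Pool.Agent.Results.MP_ff81b6_nt.LocalDependence

open MeasureTheory Filter Topology ProbabilityTheory Pool.Agent.H41.LD
open Pool.Agent.H34.ND (cramerConst)

/-- **Cramér's constant and local dependence.** -/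
theorem result :
    -- (1) the primes: if `L < l`, the primes are too frequent at each distance `d ≤ (c + δ) log X`,
    -- `c = l log (1 / l)`, after some prime-free intervals
    (∀ l : ℝ, Real.exp (-1) < l → l ≤ 1 → cramerConst {n | n.Prime} < (l : EReal) →
      ∃ δ : ℝ, 0 < δ ∧ ∀ᶠ X : ℕ in atTop, ∀ d : ℕ, 1 ≤ d →
        (d : ℝ) ≤ (l * Real.log (1 / l) + δ) * Real.log X →
          ∃ h : ℕ, (h : ℝ) ≤ l * Real.log X ^ 2 ∧ (X : ℝ) ^ δ ≤ (freeSet X h).card ∧
            (1 + δ) / Real.log X * (freeSet X h).card ≤ (hitSet X h d).card) ∧
    -- (2) random sets with delayed conditional densities at most `(κ + o (1)) / log n`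
    (∀ (Ω : Type) [MeasurableSpace Ω] (P : Measure Ω) [IsProbabilityMeasure P] (E : ℕ → Set Ω)
      (m : ℕ → ℕ) (p : ℕ → ℝ) (κ l : ℝ), Delayed P E m p → 0 < κ → Real.exp (-1) < l → l ≤ 1 →
      (∀ ε : ℝ, 0 < ε → ∀ᶠ n : ℕ in atTop, p n * Real.log n ≤ κ + ε) →
      (∀ ε : ℝ, 0 < ε → ∀ᶠ n : ℕ in atTop,
        (m n : ℝ) ≤ (l * Real.log (1 / l) / κ + ε) * Real.log n) →
      ∀ᵐ ω ∂P, ∀ lam : ℝ, lam < l / κ → HasGaps {n | ω ∈ E n} lam) ∧
    -- (3) the constant of a model is almost surely constant
    (∀ (Ω : Type) [MeasurableSpace Ω] (P : Measure Ω) [IsProbabilityMeasure P] (E : ℕ → Set Ω)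
      (m : ℕ → ℕ), Model P E m → (∀ᶠ n : ℕ in atTop, m n ^ 2 ≤ n) →
      ∃ x : EReal, IsValue m x ∧
        ∀ᵐ ω ∂P, {n | ω ∈ E n}.Infinite ∧ cramerConst {n | ω ∈ E n} = x) ∧
    -- (4) the range of the constant for a bounded range of dependence
    (∀ (d : ℕ) (x : EReal), IsValue (fun _ => d) x ↔ 1 ≤ x ∧ x ≤ ((d + 1 : ℝ) : EReal)) ∧
    -- (5) the range of the constant below the threshold
    (∀ (m : ℕ → ℕ) (l : ℝ), Real.exp (-1) < l → l ≤ 1 → Tendsto m atTop atTop →
      Tendsto (fun n : ℕ => (m n : ℝ) / Real.log n) atTop (𝓝 (l * Real.log (1 / l))) →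
      ∀ x : EReal, IsValue m x ↔ (l : EReal) ≤ x) ∧
    -- (6) the range of the constant above the threshold
    (∀ (m : ℕ → ℕ) (c : ℝ), Real.exp (-1) < c → (∀ᶠ n : ℕ in atTop, c * Real.log n ≤ m n) →
      ∀ x : EReal, IsValue m x ↔ 0 ≤ x) := by
  refine ⟨fun l hl hl1 h => primes_after_gaps hl hl1 h, ?_, ?_, range_const,
    fun m l hl hl1 h1 h2 x => range_below hl hl1 h1 h2 x, fun m c hc hm x => range_above hc hm x⟩
  · intro Ω _ P _ E m p κ l h hκ hl hl1 hp hm
    exact h.hasGaps_all hκ hl hl1 hp hm
  · intro Ω _ P _ E m h hm
    obtain ⟨x, _, hx⟩ := h.range.const (h.infinite hm)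
    exact ⟨x, ⟨Ω, inferInstance, P, inferInstance, E, h, hx⟩, hx⟩

end Pool.Agent.Results.MP_ff81b6_nt.LocalDependence
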