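import Pool.Agent.H34.ND.Ind

/-! # The exact range of Cramér's constant for negatively dependent and determinantal models

Cramér's conjecture `L = 1`, and its refinements with a constant larger than `1`, come from random
models in which the integers `n` are put independently of each other into a random set, with the
probabilities `p n = 1 / log n`, or with probabilities which take the small primes into account. How
much does the constant depend on the independence? Here the independence is replaced by negative
dependence (the events that disjoint intervals are free of elements are negatively correlated; this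
holds for all negatively associated families, for determinantal random sets with a Hermitian kernel,
for random sets with at most one element in each cell of a partition, ...).

Let `p` be any intensities with `p n → 0` and a mass of at least `δ(η) log n` on all intervals of
length `η (log n) ^ 2` near `n` (so the intensities may be concentrated on the integers without
small prime factors). Then every negatively dependent random set with the intensities `p` has almost
surely a finite constant `ℓ = limsup (a' - a) / (log a) ^ 2`, it is at most the constant
`indConst p` of the independent model, and EVERY value in `[0, indConst p]` is the constant of a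
determinantal random set with the intensities `p`. For `p n ~ 1 / log n` the range is `[0, 1]`:
Cramér's value `1` is the largest constant of a negatively dependent model.

Proof. `ℓ` is the critical exponent of the series of the probabilities `e n lam` of the empty
windows `(n, n + lam (log n) ^ 2]`. For `lam > ℓ` this is the lemma of Borel and Cantelli. For
`lam < ℓ` the windows are compared with slightly longer ones, whose probabilities are smaller by
a factor `n ^ (-δ)` by negative dependence, and a second moment argument with the weights
`1 / (log n) ^ 2` is applied. Determinantal random sets are negatively dependent by the inequality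
of Fischer. The examples consist of independent cells of mass `c ≤ 1` which contain at most one
element, with the kernel `√(p i p j)` inside the cells; their exponents are the critical exponents
of `exp (-(θ * mass))` with `θ = -log (1 - c) / c`, which depend continuously on `θ`. -/

set_option autoImplicit false

namespace Pool.Agent.Results.MP_ff81b6_nt.NegativelyDependentModels

open MeasureTheory Filter Topology Finset ProbabilityTheory Pool.Agent.H34.ND

/-- **The exact range of Cramér's constant for negatively dependent random sets.** -/
theorem result :
    (∀ p : ℕ → ℝ, (∀ n, 0 ≤ p n) → (∀ n, p n ≤ 1) → Tendsto p atTop (𝓝 0) → Spread p →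
      -- every negatively dependent random set with the intensities `p` has a constant in
      -- `[0, indConst p]`
      (∀ (Ω : Type) [MeasurableSpace Ω] (P : Measure Ω) [IsProbabilityMeasure P] (E : ℕ → Set Ω),
        NegDep P E → (∀ n, P.real (E n) = p n) → ∃ l : ℝ, 0 ≤ l ∧ l ≤ indConst p ∧
          ∀ᵐ ω ∂P, {n | ω ∈ E n}.Infinite ∧ cramerConst {n | ω ∈ E n} = (l : EReal)) ∧
      -- every value in `[0, indConst p]` is the constant of a determinantal random set with the
      -- intensities `p`
      (∀ l : ℝ, 0 ≤ l → l ≤ indConst p →
        ∃ (Ω : Type) (_ : MeasurableSpace Ω) (P : Measure Ω) (_ : IsProbabilityMeasure P)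
          (E : ℕ → Set Ω) (K : ℕ → ℕ → ℂ), Determinantal P E K ∧ (∀ n, P.real (E n) = p n) ∧
          ∀ᵐ ω ∂P, {n | ω ∈ E n}.Infinite ∧ cramerConst {n | ω ∈ E n} = (l : EReal)) ∧
      -- the value `indConst p` is the constant of the independent random set
      (∀ (Ω : Type) [MeasurableSpace Ω] (P : Measure Ω) [IsProbabilityMeasure P] (E : ℕ → Set Ω),
        (∀ n, MeasurableSet (E n)) → iIndepSet E P → (∀ n, P.real (E n) = p n) →
          ∀ᵐ ω ∂P, {n | ω ∈ E n}.Infinite ∧
            cramerConst {n | ω ∈ E n} = (indConst p : EReal))) ∧
    -- determinantal random sets are negatively dependent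
    (∀ (Ω : Type) [MeasurableSpace Ω] (P : Measure Ω) [IsProbabilityMeasure P] (E : ℕ → Set Ω)
      (K : ℕ → ℕ → ℂ), Determinantal P E K → NegDep P E) ∧
    -- the density of the primes
    (∀ p : ℕ → ℝ, (∀ n, 0 ≤ p n) → (∀ n, p n ≤ 1) →
      Tendsto (fun n : ℕ => p n * Real.log n) atTop (𝓝 1) →
        Tendsto p atTop (𝓝 0) ∧ Spread p ∧ indConst p = 1) := by
  refine ⟨fun p h0 h1 hlim hs => ⟨?_, ?_, ?_⟩, ?_, ?_⟩
  · intro Ω _ P _ E hnd hpE
    have hfun : (fun n => P.real (E n)) = p := funext hpE
    have hs' : Spread fun n => P.real (E n) := by rw [hfun]; exact hs
    refine ⟨critical (emp P E), critical_nonneg, ?_, hnd.cramer hs'⟩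
    have h2 := hnd.critical_le hs'
    rwa [hfun] at h2
  · intro l hl0 hl1
    obtain ⟨s, lab, hc, hcr⟩ := exists_cells ⟨h0, h1, hlim, hs⟩ hl0 hl1
    refine ⟨ℕ → ℝ, inferInstance, cellP, inferInstance, cellE p s lab, cellK p lab,
      hc.determinantal, hc.real_eq, ?_⟩
    have hfun : (fun n => cellP.real (cellE p s lab n)) = p := funext hc.real_eq
    have h2 := hc.determinantal.negDep.cramer (by rw [hfun]; exact hs)
    rwa [hcr] at h2
  · intro Ω _ P _ E hm hi hpE
    have hfun : (fun n => P.real (E n)) = p := funext hpE
    have h2 := indep_cramer hm hi (by rw [hfun]; exact hs)
    rwa [hfun] at h2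
  · intro Ω _ P _ E K h
    exact h.negDep
  · intro p h0 h1 hp
    exact ⟨tendsto_zero_of_density hp, spread_of_density hp, indConst_one h0 h1 hp⟩

end Pool.Agent.Results.MP_ff81b6_nt.NegativelyDependentModels
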